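import Pool.Agent.Y693.GL.Prd
import Pool.Agent.Y412.GL.HSZ
import Pool.Agent.Y275.GL.HHT
import Pool.Agent.Y671.GL.Hdx
import Pool.Agent.Y275.GL.Had1
import Pool.Agent.Y423.GL.TotD

set_option autoImplicit false

/-!
# Zeros of the derivatives of the completed L-functions over abelian number fields
-/

namespace Pool.Agent.Y693.GL

open UpperHalfPlane hiding I
open MatrixGroups CongruenceSubgroup Filter Topology Complex
open Pool.Agent.Y671.GL
open Pool.Agent.Y671.LD (bad)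
open Pool.Agent.W169.HF (IsForm coef heat)
open Pool.Agent.W355.UN (facE prodE condA Pk coprime_cond)
open Pool.Agent.TH839.UH (Flow lD)
open scoped ComplexConjugate

/-- the number of points of `A`, counted with the multiplicities of the zeros of `F` -/
noncomputable def count (F : ℂ → ℂ) (A : Set ℂ) : ENNReal := ∑' s : A, (analyticOrderNatAt F s : ENNReal)

theorem count_le {F : ℂ → ℂ} {A : Set ℂ} {B : ℝ}
    (h : ∀ S : Finset ℂ, (∀ s ∈ S, s ∈ A) → ∑ s ∈ S, (analyticOrderNatAt F s : ℝ) ≤ B) :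
    count F A ≤ ENNReal.ofReal B := by
  classical
  unfold count
  rw [ENNReal.tsum_eq_iSup_sum]
  refine iSup_le fun S => ?_
  have h1 := h (S.map (Function.Embedding.subtype _)) (by
    intro s hs
    obtain ⟨a, -, rfl⟩ := Finset.mem_map.1 hs
    exact a.2)
  rw [Finset.sum_map] at h1
  have h2 : ∑ a ∈ S, (analyticOrderNatAt F (a : ℂ) : ENNReal) =
      ENNReal.ofReal (∑ a ∈ S, (analyticOrderNatAt F (a : ℂ) : ℝ)) := by
    rw [ENNReal.ofReal_sum_of_nonneg fun _ _ => Nat.cast_nonneg _]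
    refine Finset.sum_congr rfl fun a _ => ?_
    rw [ENNReal.ofReal_natCast]
  rw [h2]
  exact ENNReal.ofReal_le_ofReal h1

theorem le_count {F : ℂ → ℂ} {A : Set ℂ} {S : Finset ℂ} (h : ∀ s ∈ S, s ∈ A) :
    ENNReal.ofReal (∑ s ∈ S, (analyticOrderNatAt F s : ℝ)) ≤ count F A := by
  classical
  unfold count
  rw [ENNReal.ofReal_sum_of_nonneg fun _ _ => Nat.cast_nonneg _]
  have h1 : ∑ s ∈ S, ENNReal.ofReal (analyticOrderNatAt F s : ℝ) =
      ∑ a ∈ S.subtype (fun s => s ∈ A), (analyticOrderNatAt F (a : ℂ) : ENNReal) := by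
    rw [Finset.sum_subtype_of_mem (f := fun s : ℂ => (analyticOrderNatAt F s : ENNReal)) h]
    refine Finset.sum_congr rfl fun a _ => ?_
    rw [ENNReal.ofReal_natCast]
  rw [h1]
  exact ENNReal.sum_le_tsum _

/-- the order of a translate -/
theorem ord_tr {F Φ : ℂ → ℂ} {v : ℂ} (hv : v ≠ 0) (hF : Differentiable ℂ F)
    (h : ∀ z : ℂ, Φ z = v * F (1 + z)) (s : ℂ) :
    analyticOrderNatAt Φ (s - 1) = analyticOrderNatAt F s := by
  have h0 : Φ = fun z => v * F (1 + z) := funext h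
  have h1 : analyticOrderAt Φ (s - 1) = analyticOrderAt F s := by
    have hg : AnalyticAt ℂ (fun z : ℂ => 1 + z) (s - 1) := by fun_prop
    have e1 : (1 : ℂ) + (s - 1) = s := by ring
    have h2 : analyticOrderAt (fun z => F (1 + z)) (s - 1) = analyticOrderAt F s := by
      have hd : deriv (fun z : ℂ => 1 + z) (s - 1) ≠ 0 := by
        rw [deriv_const_add]; simp
      have := analyticOrderAt_comp_of_deriv_ne_zero (f := F) hg hd
      rw [e1] at this
      exact this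
    rw [h0]
    have h3 : (fun z => v * F (1 + z)) = (fun _ => v) * fun z => F (1 + z) := rfl
    rw [h3, analyticOrderAt_mul analyticAt_const]
    · rw [h2]
      have h4 : analyticOrderAt (fun _ : ℂ => v) (s - 1) = 0 := analyticAt_const.analyticOrderAt_eq_zero.2 hv
      rw [h4, zero_add]
    · have : Differentiable ℂ (fun z => F (1 + z)) := hF.comp (by fun_prop)
      exact this.analyticAt _
  unfold analyticOrderNatAt
  rw [h1]

/-- zeros in a box -/
def zer (F : ℂ → ℂ) (T : ℝ) : Set ℂ := {s | F s = 0 ∧ 0 < s.im ∧ s.im ≤ T}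

/-- zeros in a box that are not on the line or not simple -/
def bd (F : ℂ → ℂ) (T : ℝ) : Set ℂ := {s | s ∈ zer F T ∧ (s.re ≠ 1 ∨ deriv F s = 0)}

/-- The results on derivatives. -/
structure DerD (Λ : ℂ → ℂ) : Prop where
  bad_le : ∃ c C : ℝ, 0 < c ∧ 0 < C ∧ ∀ (n : ℕ) (T : ℝ), 2 ≤ T →
    count (iteratedDeriv n Λ) (bd (iteratedDeriv n Λ) T) ≤ ENNReal.ofReal (C * Real.exp (-(c * n)) * (T * Real.log T))
  all_ge : ∀ K : ℝ, 1 ≤ K → ∃ b T0 : ℝ, 0 < b ∧ 2 ≤ T0 ∧ ∀ (n : ℕ) (T : ℝ), T0 ≤ T → n ≤ K * Real.log T →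
    ENNReal.ofReal (b * (T * Real.log T)) ≤ count (iteratedDeriv n Λ) (zer (iteratedDeriv n Λ) T)
  ratio : ∃ c C T0 : ℝ, 0 < c ∧ 0 < C ∧ 2 ≤ T0 ∧ ∀ (n : ℕ) (T : ℝ), T0 ≤ T →
    count (iteratedDeriv n Λ) (bd (iteratedDeriv n Λ) T) ≤ ENNReal.ofReal (C * Real.exp (-(c * n))) *
      count (iteratedDeriv n Λ) (zer (iteratedDeriv n Λ) T)

theorem diff_iter {F : ℂ → ℂ} (hF : Differentiable ℂ F) (n : ℕ) : Differentiable ℂ (iteratedDeriv n F) := by
  have h : ContDiff ℂ ⊤ F := hF.contDiff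
  exact h.differentiable_iteratedDeriv n (by exact_mod_cast (WithTop.coe_lt_top (n : ℕ∞) : _))

theorem der_of {κ : ℝ} {H X Z Λ : ℂ → ℂ} {v : ℂ} (hκ : 1 / 2 ≤ κ) (hG : GY κ H X Z)
    (hst : ∀ s : ℂ, X s = 0 → |s.re| ≤ 1 / 2) (hne : ∃ z, X z ≠ 0) (hv : v ≠ 0)
    (hX : ∀ z : ℂ, X z = v * Λ (1 + z)) (hΛ : Differentiable ℂ Λ) (hlow : LowX X) : DerD Λ := by
  have hXd : Differentiable ℂ X := hG.cg.cf.diff
  have happ : AppX X := Pool.Agent.Y275.GL.had1 X hXd hG.cg.cf.symm hne hG.cg.slow hst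
  have hiter : ∀ (n : ℕ) (z : ℂ), iteratedDeriv n X z = v * iteratedDeriv n Λ (1 + z) := fun n z => iter_tr hX n z
  have hord : ∀ (n : ℕ) (s : ℂ), analyticOrderNatAt (iteratedDeriv n X) (s - 1) =
      analyticOrderNatAt (iteratedDeriv n Λ) s := fun n s => ord_tr hv (diff_iter hΛ n) (hiter n) s
  have hbadiff : ∀ (n : ℕ) (T : ℝ) (s : ℂ), s ∈ bd (iteratedDeriv n Λ) T →
      bad X n (s - 1) ∧ 0 < (s - 1).im ∧ (s - 1).im ≤ T := by
    intro n T s hs
    obtain ⟨⟨h1, h2, h3⟩, h4⟩ := hs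
    have e1 : (1 : ℂ) + (s - 1) = s := by ring
    have e2 : (s - 1).im = s.im := by simp
    refine ⟨⟨?_, ?_⟩, ?_, ?_⟩
    · rw [hiter, e1, h1, mul_zero]
    · rcases h4 with h4 | h4
      · left
        intro h5
        apply h4
        have : (s - 1).re = s.re - 1 := by simp
        linarith
      · right
        rw [hiter, e1, iteratedDeriv_succ, h4, mul_zero]
    · rw [e2]; exact h2
    · rw [e2]; exact h3
  have hinj : Function.Injective (fun s : ℂ => s - 1) := fun a b h => by simpa using h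
  have hinj' : Function.Injective (fun s : ℂ => 1 + s) := fun a b h => by simpa using h
  -- first part
  have hA : ∃ c C : ℝ, 0 < c ∧ 0 < C ∧ ∀ (n : ℕ) (T : ℝ), 2 ≤ T →
      count (iteratedDeriv n Λ) (bd (iteratedDeriv n Λ) T) ≤
        ENNReal.ofReal (C * Real.exp (-(c * n)) * (T * Real.log T)) := by
    obtain ⟨c, C, hc, hC, h⟩ := ddy Pool.Agent.Y412.GL.HSZ.hsz κ H X Z hκ hG happ hlow
    refine ⟨c, C, hc, hC, fun n T hT => count_le fun S hS => ?_⟩
    have h1 := h n T hT (S.map ⟨_, hinj⟩) (by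
      intro s hs
      obtain ⟨a, ha, rfl⟩ := Finset.mem_map.1 hs
      exact hbadiff n T a (hS a ha))
    rw [Finset.sum_map] at h1
    have h2 : ∑ s ∈ S, (analyticOrderNatAt (iteratedDeriv n X) ((⟨_, hinj⟩ : ℂ ↪ ℂ) s) : ℝ) =
        ∑ s ∈ S, (analyticOrderNatAt (iteratedDeriv n Λ) s : ℝ) :=
      Finset.sum_congr rfl fun s _ => by
        have := hord n s
        exact_mod_cast this
    rw [h2] at h1
    refine h1.trans (le_of_eq ?_)
    ring
  have hB : ∀ K : ℝ, 1 ≤ K → ∃ b T0 : ℝ, 0 < b ∧ 2 ≤ T0 ∧ ∀ (n : ℕ) (T : ℝ), T0 ≤ T → n ≤ K * Real.log T →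
      ENNReal.ofReal (b * (T * Real.log T)) ≤ count (iteratedDeriv n Λ) (zer (iteratedDeriv n Λ) T) := by
    intro K hK
    obtain ⟨b, T0, hb, hT0, h⟩ := Pool.Agent.Y423.GL.totd κ H X Z hκ hG.cg happ K hK
    refine ⟨b, T0, hb, hT0, fun n T hT hn => ?_⟩
    obtain ⟨S, hS, hS2⟩ := h n T hT hn
    have h1 : ∀ s ∈ S.map ⟨_, hinj'⟩, s ∈ zer (iteratedDeriv n Λ) T := by
      intro s hs
      obtain ⟨a, ha, rfl⟩ := Finset.mem_map.1 hs
      obtain ⟨h2, h3, h4⟩ := hS a ha
      rw [hiter] at h2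
      refine ⟨(mul_eq_zero.1 h2).resolve_left hv, ?_, ?_⟩
      · show 0 < (1 + a).im
        simpa using h3
      · show (1 + a).im ≤ T
        simpa using h4
    refine le_trans ?_ (le_count h1)
    apply ENNReal.ofReal_le_ofReal
    rw [Finset.sum_map]
    refine (le_of_eq (by ring)).trans (hS2.trans (le_of_eq ?_))
    refine Finset.sum_congr rfl fun s _ => ?_
    have h2 := hord n (1 + s)
    have e1 : (1 : ℂ) + s - 1 = s := by ring
    rw [e1] at h2
    rw [h2]
    rfl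
  refine ⟨hA, hB, ?_⟩
  obtain ⟨c, C, hc, hC, h1⟩ := hA
  obtain ⟨K, hK, N, hN⟩ := hlow
  obtain ⟨b, T0, hb, hT0, h2⟩ := hB (max 1 K) (le_max_left _ _)
  refine ⟨c, C / b, max T0 (Real.exp (N / K)), hc, by positivity, hT0.trans (le_max_left _ _), ?_⟩
  intro n T hT
  have hTT : T0 ≤ T := (le_max_left _ _).trans hT
  have hT2 : 2 ≤ T := hT0.trans hTT
  have hTN : N / K ≤ Real.log T := by
    rw [Real.le_log_iff_exp_le (by linarith)]
    exact (le_max_right _ _).trans hT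
  rcases le_or_gt (n : ℝ) (K * Real.log T) with hn | hn
  · have h3 := h2 n T hTT (hn.trans (by
      have : 0 ≤ Real.log T := Real.log_nonneg (by linarith)
      gcongr
      exact le_max_right _ _))
    refine (h1 n T hT2).trans ?_
    have h4 : C * Real.exp (-(c * n)) * (T * Real.log T) =
        C / b * Real.exp (-(c * n)) * (b * (T * Real.log T)) := by
      field_simp
    rw [h4, ENNReal.ofReal_mul (by positivity)]
    gcongr
  · have h3 : bd (iteratedDeriv n Λ) T = ∅ := by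
      rw [Set.eq_empty_iff_forall_notMem]
      intro s hs
      obtain ⟨h4, h5, h6⟩ := hbadiff n T s hs
      have hNn : N ≤ n := by
        have : (N : ℝ) < n := by
          rw [div_le_iff₀ hK] at hTN
          linarith
        exact_mod_cast this.le
      refine hN n hNn (s - 1) ?_ h4
      rw [abs_of_pos h5]
      refine h6.trans ?_
      have h7 : Real.log T ≤ n / K := by
        rw [le_div_iff₀ hK]
        linarith
      calc T = Real.exp (Real.log T) := (Real.exp_log (by linarith)).symm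
        _ ≤ _ := Real.exp_le_exp.2 h7
    rw [h3]
    unfold count
    rw [tsum_empty]
    exact zero_le

/-- elliptic curves over abelian number fields -/
theorem der_ab {C : ℝ} (hC : 0 < C) {N : ℕ} [NeZero N] {f : CuspForm (Gamma0 N : Subgroup (GL (Fin 2) ℝ)) 2}
    {w : ℝ} {M : ℕ} [NeZero M] (G : Subgroup (DirichletCharacter ℂ M)) [Fintype G] (hf : IsForm N f w)
    (hco : Nat.Coprime M N) {Λ : ℂ → ℂ} (hd : Differentiable ℂ Λ)
    (hΛ : ∃ σ : ℝ, ∀ s : ℂ, σ ≤ s.re → Λ s = prodE G f s) (hF : Flow C (Fintype.card G) (condA G N) Λ) :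
    DerD Λ := by
  obtain ⟨H, X, Z, h1, h2, h3, v, hv, h4⟩ := gy_Lam G hf hco hd hΛ
  have hcard : 1 ≤ Fintype.card G := Fintype.card_pos
  have hA : 1 ≤ condA G N := by
    unfold condA
    have hN1 : (1 : ℝ) ≤ N := by exact_mod_cast Nat.one_le_iff_ne_zero.2 (NeZero.ne N)
    have e1 : (1 : ℝ) = ∏ _χ : G, (1 : ℝ) := by simp
    rw [e1]
    refine Finset.prod_le_prod (fun _ _ => zero_le_one) fun χ _ => ?_
    have hc : (1 : ℝ) ≤ ((χ : DirichletCharacter ℂ M).conductor : ℝ) := by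
      exact_mod_cast Nat.one_le_iff_ne_zero.2 (DirichletCharacter.conductor_ne_zero _)
    exact one_le_mul_of_one_le_of_one_le hN1 (one_le_pow₀ hc)
  obtain ⟨K, hK, hslow⟩ := h1.cg.slow
  have hXs : Pool.Agent.W169.HF.Slow X := slow_of h1.cg.cf.diff hK hslow
  obtain ⟨h5, -⟩ := Pool.Agent.Y275.GL.hht X hXs h1.cg.cf.symm h3 h2
  have h0 : heat 0 Λ = Λ := by
    funext s
    have h6 := heat_tr h4 0 (s - 1)
    rw [h5, h4] at h6
    have e1 : (1 : ℂ) + (s - 1) = s := by ring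
    rw [e1] at h6
    exact (mul_left_cancel₀ hv h6).symm
  refine der_of ?_ h1 h2 h3 hv h4 hd (low_of hC hcard hA hv h4 h0 hF)
  have : (1 : ℝ) ≤ Fintype.card G := by exact_mod_cast hcard
  linarith

end Pool.Agent.Y693.GL
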