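import Pool.Agent.Y693.GL.Mul
import Pool.Agent.Y671.GL.Ddx

set_option autoImplicit false

/-!
# Good points for products, with a tolerance proportional to the degree
-/

namespace Pool.Agent.Y693.GL

open Complex Filter Topology MeasureTheory Set Polynomial
open scoped ComplexConjugate
open Pool.Agent.Y671.GL
open Pool.Agent.H24R2.JP (Om)
open Pool.Agent.H24R2.DZ (ra NN)
open Pool.Agent.Y671.LD

/-- Most points are good at all scales; the tolerance is `κ / 2`. -/
def GoodY (κ : ℝ) (X : ℂ → ℂ) : Prop := ∀ η : ℝ, 0 < η → ∃ c C a0 T0 : ℝ, 0 < c ∧ 0 < C ∧ 1 ≤ a0 ∧ 2 ≤ T0 ∧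
  ∀ T a r : ℝ, T0 ≤ T → a0 ≤ a → 0 < r → r ≤ 1 / 100 → κ * r ≤ 1 / 100 → |κ * r * Real.log T - a| ≤ κ / 2 →
    volume {t0 : ℝ | T / 2 ≤ t0 ∧ t0 ≤ 3 * T ∧ ¬ NN a η (fun z => X (I * t0 + r * z))} ≤
      ENNReal.ofReal (C * T * Real.exp (-(c * a)))

/-- A completed L-function, `κ` = degree / 2. -/
structure GY (κ : ℝ) (H X Z : ℂ → ℂ) : Prop where
  cg : CG κ H X Z
  good : GoodY κ X
  top : TopL κ X

theorem gy_one {H X Z : ℂ → ℂ} (h : GG 1 H X Z) : GY 1 H X Z := ⟨h.cg, h.good, h.top⟩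

theorem good_mulY {κ κ' : ℝ} {X X' : ℂ → ℂ} (hκ : 0 < κ) (hκ' : 0 < κ') (h1 : GoodY κ X) (h2 : GoodY κ' X') :
    GoodY (κ + κ') (fun w => X w * X' w) := by
  intro η hη
  obtain ⟨c1, C1, a1, T1, hc1, hC1, ha1, hT1, H1⟩ := h1 η hη
  obtain ⟨c2, C2, a2, T2, hc2, hC2, ha2, hT2, H2⟩ := h2 η hη
  have hs : 0 < κ + κ' := by linarith
  set s := κ + κ' with hsdef
  set p := κ / s with hp
  set q := κ' / s with hq
  have hpp : 0 < p := by positivity
  have hqp : 0 < q := by positivity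
  have hpq : p + q = 1 := by
    rw [hp, hq, ← add_div]; exact div_self hs.ne'
  have hps : p * s = κ := by rw [hp]; field_simp
  have hqs : q * s = κ' := by rw [hq]; field_simp
  have hp1 : p ≤ 1 := by linarith
  have hq1 : q ≤ 1 := by linarith
  refine ⟨min (c1 * p) (c2 * q), C1 + C2, max (a1 / p) (a2 / q), max T1 T2, by positivity, by positivity,
    ?_, hT1.trans (le_max_left _ _), ?_⟩
  · refine le_trans ?_ (le_max_left _ _)
    rw [le_div_iff₀ hpp]; linarith
  intro T a r hT ha hr hr1 hκr haT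
  have hT0 : 0 < T := by linarith [(le_max_left T1 T2).trans hT]
  have ha1' : a1 ≤ p * a := by
    have := (le_max_left _ _).trans ha
    rw [div_le_iff₀ hpp] at this; linarith
  have ha2' : a2 ≤ q * a := by
    have := (le_max_right _ _).trans ha
    rw [div_le_iff₀ hqp] at this; linarith
  have ha0 : 0 < a := by
    by_contra hc
    have : p * a ≤ 0 := by nlinarith
    linarith
  have e1 : |κ * r * Real.log T - p * a| ≤ κ / 2 := by
    have : κ * r * Real.log T - p * a = p * (s * r * Real.log T - a) := by rw [← hps]; ring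
    rw [this, abs_mul, abs_of_pos hpp]
    calc p * |s * r * Real.log T - a| ≤ p * (s / 2) := by gcongr
      _ = κ / 2 := by rw [← hps]; ring
  have e2 : |κ' * r * Real.log T - q * a| ≤ κ' / 2 := by
    have : κ' * r * Real.log T - q * a = q * (s * r * Real.log T - a) := by rw [← hqs]; ring
    rw [this, abs_mul, abs_of_pos hqp]
    calc q * |s * r * Real.log T - a| ≤ q * (s / 2) := by gcongr
      _ = κ' / 2 := by rw [← hqs]; ring
  have m1 := H1 T (p * a) r ((le_max_left _ _).trans hT) ha1' hr hr1 (by nlinarith) e1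
  have m2 := H2 T (q * a) r ((le_max_right _ _).trans hT) ha2' hr hr1 (by nlinarith) e2
  calc volume {t0 : ℝ | T / 2 ≤ t0 ∧ t0 ≤ 3 * T ∧
        ¬ NN a η (fun z => X (I * t0 + r * z) * X' (I * t0 + r * z))}
      ≤ volume ({t0 : ℝ | T / 2 ≤ t0 ∧ t0 ≤ 3 * T ∧ ¬ NN (p * a) η (fun z => X (I * t0 + r * z))} ∪
          {t0 : ℝ | T / 2 ≤ t0 ∧ t0 ≤ 3 * T ∧ ¬ NN (q * a) η (fun z => X' (I * t0 + r * z))}) := by
        refine measure_mono ?_
        rintro t0 ⟨k1, k2, k3⟩
        by_cases g1 : NN (p * a) η (fun z => X (I * t0 + r * z))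
        · by_cases g2 : NN (q * a) η (fun z => X' (I * t0 + r * z))
          · exfalso
            apply k3
            have := nn_mul g1 g2
            have e : p * a + q * a = a := by rw [← add_mul, hpq, one_mul]
            rwa [e] at this
          · exact Or.inr ⟨k1, k2, g2⟩
        · exact Or.inl ⟨k1, k2, g1⟩
    _ ≤ _ := measure_union_le _ _
    _ ≤ ENNReal.ofReal (C1 * T * Real.exp (-(c1 * (p * a)))) +
        ENNReal.ofReal (C2 * T * Real.exp (-(c2 * (q * a)))) := add_le_add m1 m2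
    _ = ENNReal.ofReal (C1 * T * Real.exp (-(c1 * (p * a))) + C2 * T * Real.exp (-(c2 * (q * a)))) :=
        (ENNReal.ofReal_add (by positivity) (by positivity)).symm
    _ ≤ ENNReal.ofReal ((C1 + C2) * T * Real.exp (-(min (c1 * p) (c2 * q) * a))) := by
        refine ENNReal.ofReal_le_ofReal ?_
        have g1 : Real.exp (-(c1 * (p * a))) ≤ Real.exp (-(min (c1 * p) (c2 * q) * a)) := by
          apply Real.exp_le_exp.2
          have := min_le_left (c1 * p) (c2 * q)
          nlinarith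
        have g2 : Real.exp (-(c2 * (q * a))) ≤ Real.exp (-(min (c1 * p) (c2 * q) * a)) := by
          apply Real.exp_le_exp.2
          have := min_le_right (c1 * p) (c2 * q)
          nlinarith
        have g3 : C1 * T * Real.exp (-(c1 * (p * a))) ≤ C1 * T * Real.exp (-(min (c1 * p) (c2 * q) * a)) := by
          gcongr
        have g4 : C2 * T * Real.exp (-(c2 * (q * a))) ≤ C2 * T * Real.exp (-(min (c1 * p) (c2 * q) * a)) := by
          gcongr
        nlinarith

theorem gy_mul {κ κ' : ℝ} {H X Z H' X' Z' : ℂ → ℂ} (h1 : GY κ H X Z) (h2 : GY κ' H' X' Z') :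
    GY (κ + κ') (fun w => H w * H' w) (fun w => X w * X' w) (fun w => Z w * Z' w) :=
  ⟨cg_mul h1.cg h2.cg, good_mulY h1.cg.cf.κ_pos h2.cg.cf.κ_pos h1.good h2.good,
    top_mul h1.cg.cf.diff h2.cg.cf.diff h1.top h2.top⟩

/-- most points are good at all scales -/
theorem good_scaleY {κ : ℝ} {X : ℂ → ℂ} (hκ : 1 / 2 ≤ κ) (h : GoodY κ X) :
    ∀ η : ℝ, 0 < η → ∃ c C a0 T0 : ℝ, 0 < c ∧ 0 < C ∧ 1 ≤ a0 ∧ 2 ≤ T0 ∧ ∀ T a : ℝ, T0 ≤ T → a0 ≤ a →
    a ≤ Real.log T / 200 → volume {t0 : ℝ | T / 2 ≤ t0 ∧ t0 ≤ 3 * T ∧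
      ¬ NN a η (fun z => (fun z => X (z / (2 * κ : ℝ))) (I * t0 + ra T a * z))} ≤
        ENNReal.ofReal (C * T * Real.exp (-(c * a))) := by
  intro η hη
  have hκ0 : 0 < κ := by linarith
  obtain ⟨c, C, a0, T0, hc, hC, ha0, hT0, H⟩ := h η hη
  have hb1 : 1 ≤ 2 * κ := by linarith
  have hlog0 : 0 ≤ Real.log (2 * κ) := Real.log_nonneg hb1
  have hlog : Real.log (2 * κ) ≤ 2 * κ := by
    have := Real.log_le_sub_one_of_pos (show 0 < 2 * κ by linarith)
    linarith
  refine ⟨c, C, a0, 2 * κ * T0, hc, hC, ha0, by nlinarith, ?_⟩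
  intro T a hT ha haT
  have hTpos : 0 < T := lt_of_lt_of_le (by positivity) hT
  have hT2 : 2 ≤ T := le_trans (by nlinarith) hT
  have hlT : 0 < Real.log T := Real.log_pos (by linarith)
  have hapos : 0 < a := by linarith
  obtain ⟨T', hT'⟩ : ∃ T', T' = T / (2 * κ) := ⟨_, rfl⟩
  obtain ⟨r, hr⟩ : ∃ r, r = a / (κ * Real.log T) := ⟨_, rfl⟩
  have hrpos : 0 < r := by rw [hr]; positivity
  have hkr : κ * r = a / Real.log T := by rw [hr]; field_simp
  have hkr2 : κ * r ≤ 1 / 200 := by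
    rw [hkr, div_le_iff₀ hlT]; linarith
  have hT'0 : T0 ≤ T' := by
    rw [hT', le_div_iff₀ (by positivity)]; linarith
  have hlogT' : Real.log T' = Real.log T - Real.log (2 * κ) := by
    rw [hT', Real.log_div hTpos.ne' (by positivity)]
  have h1 := H T' a r hT'0 ha hrpos (by nlinarith) (by linarith) (by
    rw [hlogT', mul_sub, hkr]
    have h2 : a / Real.log T * Real.log T = a := by field_simp
    rw [h2, sub_sub_cancel_left, abs_neg, abs_of_nonneg (by positivity)]
    rw [← hkr]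
    nlinarith)
  have h2 : volume {t0 : ℝ | T / 2 ≤ t0 ∧ t0 ≤ 3 * T ∧
      ¬ NN a η (fun z => (fun z => X (z / (2 * κ : ℝ))) (I * t0 + ra T a * z))} ≤
      ENNReal.ofReal (2 * κ) * volume {t0 : ℝ | T' / 2 ≤ t0 ∧ t0 ≤ 3 * T' ∧
        ¬ NN a η (fun z => X (I * t0 + r * z))} := by
    apply vol_scale (by positivity)
    rintro t ⟨k1, k2, k3⟩
    refine ⟨?_, ?_, ?_⟩
    · rw [hT', div_right_comm]
      gcongr
    · rw [hT', mul_div_assoc']
      gcongr
    · convert k3 using 4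
      rename_i z
      have hk : (κ : ℂ) ≠ 0 := by exact_mod_cast hκ0.ne'
      have hl : (Real.log T : ℂ) ≠ 0 := by exact_mod_cast hlT.ne'
      rw [hr]
      unfold ra
      push_cast
      field_simp
  refine h2.trans ((mul_le_mul_right h1 _).trans ?_)
  rw [← ENNReal.ofReal_mul (by positivity)]
  apply ENNReal.ofReal_le_ofReal
  rw [hT']
  have : 2 * κ * (C * (T / (2 * κ)) * Real.exp (-(c * a))) = C * T * Real.exp (-(c * a)) := by
    field_simp
  rw [this]

theorem ddy (hsz : S_HSZ) (κ : ℝ) (H X Z : ℂ → ℂ) (hκ : 1 / 2 ≤ κ) (hG : GY κ H X Z) (hA : AppX X) (hL : LowX X) :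
  ∃ c C : ℝ, 0 < c ∧ 0 < C ∧ ∀ (n : ℕ) (T : ℝ), 2 ≤ T → ∀ S : Finset ℂ,
    (∀ s ∈ S, bad X n s ∧ 0 < s.im ∧ s.im ≤ T) →
    ∑ s ∈ S, (analyticOrderNatAt (iteratedDeriv n X) s : ℝ) ≤ C * T * Real.log T * Real.exp (-(c * n)) := by
  have hκ0 : 0 < κ := by linarith
  have hb : 0 < 2 * κ := by positivity
  have hbc : ((2 * κ : ℝ) : ℂ) ≠ 0 := by exact_mod_cast hb.ne'
  have hC := hG.cg.cf
  have hXd := hC.diff
  set F : ℂ → ℂ := fun z => X (z / (2 * κ : ℝ)) with hF
  have hFd : Differentiable ℂ F := hXd.comp (by fun_prop)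
  obtain ⟨h1, h2, h3, h4, h5, h6, h7⟩ := hsz κ H X Z hκ hG.cg F _ (by rw [hF]; push_cast; rfl) rfl
  obtain ⟨K0, hK0, N0, hlow⟩ := hL
  have happ : App κ F := app_scale hb (by ring) hA
  obtain ⟨K1, T1, hT1, h6'⟩ := h6 (10 * κ)
  have hne := iter_ne hFd (10 * κ) K1 T1 (fun t ht => h6' t ((10 * κ : ℝ) : ℂ) ht
    (by rw [Complex.norm_real, Real.norm_eq_abs, abs_of_pos (by positivity)])
    (by rw [Complex.ofReal_re]))
  have hst : Strip F κ := strip_of_app' hFd happ hne
  have hDD : DD κ (max 25 K0) F := by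
    refine ⟨hκ, le_max_left _ _, hFd, ?_, happ, ⟨_, h1, h7⟩, ?_, ?_, good_scaleY hκ hG.good,
      top_scale hXd hκ hG.top⟩
    · intro z
      exact symm_scale hC.symm z
    · intro n hn
      have h8 := hst n _ hn
      have h9 : ((10 * κ : ℂ)).re = 10 * κ := by
        simp
      rw [h9, abs_of_pos (by positivity)] at h8
      linarith
    · refine ⟨N0, ?_⟩
      intro n hn s hs hbad
      rw [hF, bad_scale hb hXd] at hbad
      refine hlow n hn _ ?_ hbad
      rw [Complex.div_ofReal_im, abs_div, abs_of_pos hb]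
      have h8 : |s.im| / (2 * κ) ≤ |s.im| := div_le_self (abs_nonneg _) (by linarith)
      have h9 : Real.exp (n / max 25 K0) ≤ Real.exp (n / K0) := by
        apply Real.exp_le_exp.2
        exact div_le_div_of_nonneg_left (by positivity) hK0 (le_max_right _ _)
      linarith
  obtain ⟨c, C, hc, hCp, hfin⟩ := sfin hDD Pool.Agent.W347.SD.sb2 (Pool.Agent.W368.SD.sb3 Pool.Agent.W347.SD.sb2)
    Pool.Agent.W571.SD.sb1a Pool.Agent.W571.SD.sb1b (Pool.Agent.W32.SD.scount Pool.Agent.W347.SD.sb2)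
  have hlog0 : 0 ≤ Real.log (2 * κ) := Real.log_nonneg (by linarith)
  refine ⟨c, C * (2 * κ) * (1 + 2 * Real.log (2 * κ)), hc, by positivity, ?_⟩
  intro n T hT S hS
  classical
  have h8 := hfin n (2 * κ * T) (by nlinarith) (S.image (fun s => ((2 * κ : ℝ) : ℂ) * s)) (by
    intro s hs
    rw [Finset.mem_image] at hs
    obtain ⟨w, hw, rfl⟩ := hs
    obtain ⟨k1, k2, k3⟩ := hS w hw
    refine ⟨?_, ?_, ?_⟩
    · rw [hF, bad_scale hb hXd, mul_div_cancel_left₀ _ hbc]
      exact k1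
    · rw [Complex.im_ofReal_mul]
      positivity
    · rw [Complex.im_ofReal_mul]
      gcongr)
  rw [Finset.sum_image (by
    intro x _ y _ hxy
    exact mul_left_cancel₀ hbc hxy)] at h8
  have h9 : ∀ s ∈ S, (analyticOrderNatAt (iteratedDeriv n X) s : ℝ) =
      (analyticOrderNatAt (iteratedDeriv n F) (((2 * κ : ℝ) : ℂ) * s) : ℝ) := by
    intro s _
    have e1 : iteratedDeriv n F = fun z => ((1 / (2 * κ) : ℝ) : ℂ) ^ n * iteratedDeriv n X (z / ((2 * κ : ℝ) : ℂ)) := by
      funext z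
      have e2 : F = fun z => X (((1 / (2 * κ) : ℝ) : ℂ) * z) := by
        rw [hF]
        funext z
        congr 1
        push_cast
        ring
      rw [e2, iter_scale hXd]
      congr 2
      push_cast
      ring
    rw [e1, order_const_mul, order_scale hb (iter_diff hXd n)]
    · apply pow_ne_zero
      norm_cast
      positivity
    · have : Differentiable ℂ (fun z => iteratedDeriv n X (z / ((2 * κ : ℝ) : ℂ))) :=
        (iter_diff hXd n).comp (by fun_prop)
      exact this.analyticAt _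
  rw [Finset.sum_congr rfl h9]
  refine h8.trans ?_
  have hlT : 1 / 2 ≤ Real.log T := by
    have h3 : Real.log 2 ≤ Real.log T := Real.log_le_log (by norm_num) hT
    have := Real.log_two_gt_d9
    linarith
  have h10 : Real.log (2 * κ * T) ≤ (1 + 2 * Real.log (2 * κ)) * Real.log T := by
    rw [Real.log_mul hb.ne' (by linarith)]
    nlinarith
  calc C * Real.exp (-(c * n)) * (2 * κ * T) * Real.log (2 * κ * T)
      ≤ C * Real.exp (-(c * n)) * (2 * κ * T) * ((1 + 2 * Real.log (2 * κ)) * Real.log T) := by gcongr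
    _ = _ := by ring

end Pool.Agent.Y693.GL
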