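import Pool.Agent.Y693.GL.Twf
import Pool.Agent.Y671.GL.Cg
import Pool.Agent.Y671.GL.Good
import Pool.Agent.W355.UN.Ab2
import Pool.Agent.W355.UN.Fin
import Pool.Agent.W108.TW.Mellin
import Pool.Agent.W388.TW.Good
import Pool.Agent.W820.TW.FE

set_option autoImplicit false

/-!
# The completed L-functions of the twists of a newform of weight two
-/

namespace Pool.Agent.Y693.GL

open UpperHalfPlane hiding I
open MatrixGroups CongruenceSubgroup Filter Topology Complex ZMod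
open Pool.Agent.Y671.GL
open Pool.Agent.Y771.NF
open Pool.Agent.W169.HF (IsForm coef)
open Pool.Agent.W355.UN (facE isNewf_of eu2_of Pk pk_raw tw_raw fac_eq)
open scoped ComplexConjugate

variable {N : ℕ} [NeZero N] {f : CuspForm (Gamma0 N : Subgroup (GL (Fin 2) ℝ)) 2} {w : ℝ}
variable {q : ℕ} [NeZero q] {χ : DirichletCharacter ℂ q}

/-- the coefficients of the twist, weight two -/
noncomputable def l2 {N : ℕ} (f : CuspForm (Gamma0 N : Subgroup (GL (Fin 2) ℝ)) 2) {q : ℕ}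
    (χ : DirichletCharacter ℂ q) (n : ℕ) : ℂ := χ (n : ZMod q) * (W388.lamf f n : ℂ)

theorem frm2 (hf : IsForm N f w) (hχ : χ.IsPrimitive) (hco : Nat.Coprime q N) :
    Frm 2 (N * q ^ 2) (psx N χ) (l2 f χ) :=
  frm_tw (k := 2) (f := f) (by norm_num) (isNewf_of hf) hχ hco

theorem exists_L (hf : IsForm N f w) (hχ : χ.IsPrimitive) (hco : Nat.Coprime q N) :
    ∃ F : ℂ → ℂ, W388.FE2 2 N q F ∧ IsL (l2 f χ) F := by
  have hsum : ∀ (q : ℕ) [NeZero q] (χ : DirichletCharacter ℂ q) (s : ℂ), 1 < s.re →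
      Summable (fun n : ℕ => ‖χ (n : ZMod q) * (W388.lamf f n : ℂ) * (n : ℂ) ^ (-s)‖) := by
    intro q _ χ s hs
    have h0 : Frm 2 N (psN N) (lm (k := 2) f) := frm_newf (by norm_num) (isNewf_of hf)
    obtain ⟨-, -, -, h4⟩ := Pool.Agent.Y771.GL.mf 2 N (psN N) (lm (k := 2) f) h0
    refine (h4 s.re hs).1.of_nonneg_of_le (fun n => norm_nonneg _) fun n => ?_
    rcases Nat.eq_zero_or_pos n with rfl | hn
    · have h5 : (W388.lamf f 0 : ℂ) = 0 := h0.zero
      rw [h5]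
      simp
      positivity
    · rw [norm_mul, norm_mul, Complex.norm_natCast_cpow_of_pos hn, neg_re]
      have h6 := χ.norm_le_one (n : ZMod q)
      have h7 : ‖lm (k := 2) f n‖ = ‖(W388.lamf f n : ℂ)‖ := rfl
      rw [h7]
      have h8 : (0 : ℝ) ≤ (n : ℝ) ^ (-s.re) := by positivity
      have h9 := norm_nonneg ((W388.lamf f n : ℂ))
      calc ‖χ (n : ZMod q)‖ * ‖(W388.lamf f n : ℂ)‖ * (n : ℝ) ^ (-s.re) ≤
          1 * ‖(W388.lamf f n : ℂ)‖ * (n : ℝ) ^ (-s.re) := by gcongr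
        _ = _ := by ring
  obtain ⟨F, hF, hs⟩ := W388.exists_twist Pool.Agent.W440.TW.t_twist Pool.Agent.W108.TW.t_mellin
    (k := 2) (by norm_num) (isNewf_of hf) hsum q χ hχ hco
  exact ⟨F, hF, hF.diff, hs⟩

/-- facE in terms of the L-function -/
theorem facE_eq (hf : IsForm N f w) {F : ℂ → ℂ} (hF : IsL (l2 f χ) F) {s : ℂ} (hs : 3 / 2 < s.re)
    (h0 : W388.lamf f 0 = 0) :
    facE f χ s = ((Real.sqrt N * q / (2 * Real.pi) : ℝ) : ℂ) ^ s * Complex.Gamma s * F (s - 1 / 2) := by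
  have hsr : 1 < (s - 1 / 2).re := by
    have : (s - 1 / 2).re = s.re - 1 / 2 := by simp
    rw [this]; linarith
  unfold facE
  congr 1
  rw [hF.ser _ hsr]
  have hterm : ∀ n : ℕ, coef f (n + 1) * χ ((n + 1 : ℕ) : ZMod q) * ((n + 1 : ℕ) : ℂ) ^ (-s) =
      l2 f χ (n + 1) * ((n + 1 : ℕ) : ℂ) ^ (-(s - 1 / 2)) := by
    intro n
    have hn : (0 : ℝ) < ((n + 1 : ℕ) : ℝ) := by positivity
    have hnc : ((n + 1 : ℕ) : ℂ) ≠ 0 := by exact_mod_cast (Nat.succ_ne_zero n)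
    have h1 : coef f (n + 1) = (W388.lamf f (n + 1) : ℂ) * ((n + 1 : ℕ) : ℂ) ^ (1 / 2 : ℂ) := by
      have h2 := aa_lm (k := 2) (f := f) (isNewf_of hf) (n + 1)
      unfold aa lm at h2
      show (qExpansion 1 f).coeff (n + 1) = _
      rw [← h2]
      congr 1
      rw [Complex.ofReal_cpow hn.le]
      congr 1
      · push_cast; norm_num
    rw [h1]
    unfold l2
    have h3 : ((n + 1 : ℕ) : ℂ) ^ (-(s - 1 / 2)) = ((n + 1 : ℕ) : ℂ) ^ (1 / 2 : ℂ) * ((n + 1 : ℕ) : ℂ) ^ (-s) := by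
      rw [← Complex.cpow_add _ _ hnc]
      congr 1
      ring
    rw [h3]
    ring
  rw [tsum_congr hterm]
  have hz : l2 f χ 0 * ((0 : ℕ) : ℂ) ^ (-(s - 1 / 2)) = 0 := by
    unfold l2
    rw [h0]
    simp
  by_cases hS : Summable (fun n : ℕ => l2 f χ n * (n : ℂ) ^ (-(s - 1 / 2)))
  · rw [hS.tsum_eq_zero_add, hz, zero_add]
  · have hS' : ¬ Summable (fun n : ℕ => l2 f χ (n + 1) * ((n + 1 : ℕ) : ℂ) ^ (-(s - 1 / 2))) := by
      intro h
      exact hS ((summable_nat_add_iff (f := fun n : ℕ => l2 f χ n * (n : ℂ) ^ (-(s - 1 / 2))) 1).1 h)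
    rw [tsum_eq_zero_of_not_summable hS, tsum_eq_zero_of_not_summable hS']

/-- the completed L-function of a twist -/
theorem ldata_tw (hf : IsForm N f w) (hχ : χ.IsPrimitive) (hco : Nat.Coprime q N) :
    ∃ (c : ℝ) (u : ℂ) (X Z : ℂ → ℂ), LData 2 c u X Z ∧ IsL (l2 f χ) Z ∧
      ∃ v : ℂ, v ≠ 0 ∧ ∃ σ : ℝ, ∀ s : ℂ, σ ≤ s.re → X (s - 1) = v * facE f χ s := by
  obtain ⟨F, hFE, hF⟩ := exists_L hf hχ hco
  have hfrm := frm2 hf hχ hco
  have h00 : W388.lamf f 0 = 0 := by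
    have h0 : Frm 2 N (psN N) (lm (k := 2) f) := frm_newf (by norm_num) (isNewf_of hf)
    have h5 : (W388.lamf f 0 : ℂ) = 0 := h0.zero
    exact_mod_cast h5
  have hN0 : (0 : ℝ) < N := by exact_mod_cast Nat.pos_of_ne_zero (NeZero.ne N)
  have hq0 : (0 : ℝ) < q := by exact_mod_cast Nat.pos_of_ne_zero (NeZero.ne q)
  have hN1 : (1 : ℝ) ≤ N := by exact_mod_cast Nat.one_le_iff_ne_zero.2 (NeZero.ne N)
  have hq1 : (1 : ℝ) ≤ q := by exact_mod_cast Nat.one_le_iff_ne_zero.2 (NeZero.ne q)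
  have hsN : 0 < Real.sqrt N := Real.sqrt_pos.2 hN0
  have hpi0 := Real.pi_pos
  -- the entire completed function
  have hE := eu2_of hf
  obtain ⟨cc, X0, hraw⟩ := tw_raw f hE (isNewf_of hf) χ hχ hco
  have hpk := pk_raw hraw
  have hd := hpk.diff
  obtain ⟨w', hw', hfe⟩ := hpk.fe
  obtain ⟨μ, L, ul, ec, σ0, hσ0⟩ := hpk
  obtain ⟨κ, hκ⟩ : ∃ κ : ℂ, κ = 2 * ((Real.sqrt N * q : ℝ) : ℂ) ^ (-(1 / 2) : ℂ) := ⟨_, rfl⟩
  have hκ0 : κ ≠ 0 := by
    rw [hκ]
    refine mul_ne_zero two_ne_zero ?_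
    rw [Ne, Complex.cpow_eq_zero_iff]
    have : (0 : ℝ) < Real.sqrt N * q := by positivity
    exact fun h => this.ne' (by exact_mod_cast h.1)
  have hX0 : ∀ s : ℂ, max σ0 2 ≤ s.re → X0 s = κ * facE f χ (s + 1 / 2) := by
    intro s hs
    rw [hσ0 s ((le_max_left _ _).trans hs), hκ]
    exact fac_eq hE (Nat.pos_of_ne_zero (NeZero.ne q)) χ (by linarith [(le_max_right σ0 2).trans hs])
  -- the constant
  obtain ⟨c0, hc0⟩ : ∃ c0 : ℂ, c0 ^ 2 = conj w' := IsAlgClosed.exists_pow_nat_eq _ (by norm_num)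
  have hc0n : ‖c0‖ = 1 := by
    have h1 := congrArg norm hc0
    rw [norm_pow, Complex.norm_conj, hw'] at h1
    nlinarith [norm_nonneg c0]
  have hc00 : c0 ≠ 0 := by
    intro h; rw [h, norm_zero] at hc0n; exact zero_ne_one hc0n
  have hc0w : c0 * w' = conj c0 := by
    apply mul_left_cancel₀ hc00
    have h1 : conj w' * w' = 1 := by
      rw [mul_comm, Complex.mul_conj, Complex.normSq_eq_norm_sq, hw']
      simp
    have h2 : c0 * conj c0 = 1 := by
      rw [Complex.mul_conj, Complex.normSq_eq_norm_sq, hc0n]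
      simp
    rw [h2, ← mul_assoc, ← sq, hc0, h1]
  obtain ⟨c, hc⟩ : ∃ c : ℝ, c = Real.sqrt N * q / (2 * Real.pi) := ⟨_, rfl⟩
  have hcp : 0 < c := by rw [hc]; positivity
  have hcc : (c : ℂ) ≠ 0 := by exact_mod_cast hcp.ne'
  obtain ⟨X, hX⟩ : ∃ X : ℂ → ℂ, X = fun z => c0 * X0 (z + 1 / 2) := ⟨_, rfl⟩
  have hXd : Differentiable ℂ X := by
    rw [hX]
    exact (hd.comp (differentiable_id.add_const _)).const_mul _
  obtain ⟨u, hu⟩ : ∃ u : ℂ, u = c0 * κ * c := ⟨_, rfl⟩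
  have hu0 : u ≠ 0 := by rw [hu]; exact mul_ne_zero (mul_ne_zero hc00 hκ0) hcc
  -- large real part
  have hbig : ∀ z : ℂ, max σ0 2 ≤ z.re → X z = u * Hg c 1 z * F (1 / 2 + z) := by
    intro z hz
    have hre : (z + 1 / 2 : ℂ).re = z.re + 1 / 2 := by simp
    have h2 : (2 : ℝ) ≤ z.re := (le_max_right σ0 2).trans hz
    have e1 : X z = c0 * X0 (z + 1 / 2) := by rw [hX]
    rw [e1, hX0 _ (by rw [hre]; linarith)]
    have e2 : (z + 1 / 2 + 1 / 2 : ℂ) = z + 1 := by ring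
    have hre1 : (z + 1 : ℂ).re = z.re + 1 := by simp
    rw [e2, facE_eq hf hF (by rw [hre1]; linarith) h00, ← hc]
    have e3 : (z + 1 - 1 / 2 : ℂ) = 1 / 2 + z := by ring
    rw [e3, Complex.cpow_add _ _ hcc, Complex.cpow_one, hu]
    unfold Hg
    push_cast
    ring
  -- the identity on the slit plane
  obtain ⟨U, hU⟩ : ∃ U : Set ℂ, U = {z : ℂ | 1 / 2 < z.re ∨ z.im ≠ 0} := ⟨_, rfl⟩
  have hUs : U = (fun z : ℂ => z - 1 / 2) ⁻¹' Complex.slitPlane := by
    rw [hU]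
    ext z
    rw [Set.mem_preimage, Complex.mem_slitPlane_iff]
    simp only [Set.mem_setOf_eq, Complex.sub_re, Complex.sub_im]
    norm_num
  have hUo : IsOpen U := by
    rw [hUs]
    exact Complex.isOpen_slitPlane.preimage (by fun_prop)
  have hUc : IsPreconnected U := by
    have h1 : U = (fun z : ℂ => z + 1 / 2) '' Complex.slitPlane := by
      rw [hUs]
      ext z
      constructor
      · intro h
        exact ⟨z - 1 / 2, h, by ring⟩
      · rintro ⟨y, hy, rfl⟩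
        show y + 1 / 2 - 1 / 2 ∈ Complex.slitPlane
        rwa [add_sub_cancel_right]
    rw [h1]
    refine IsPreconnected.image ?_ _ (by fun_prop)
    exact (Complex.starConvex_one_slitPlane.isPathConnected Complex.one_mem_slitPlane).isConnected.isPreconnected
  have hG : ∀ z : ℂ, (1 / 2 < z.re ∨ z.im ≠ 0) → DifferentiableAt ℂ (Hg c 1) z := by
    intro z hz
    unfold Hg
    refine DifferentiableAt.mul ?_ ?_
    · exact DifferentiableAt.const_cpow differentiableAt_id (Or.inl hcc)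
    · refine DifferentiableAt.comp z (f := fun z : ℂ => z + ((1 : ℝ) : ℂ)) (Complex.differentiableAt_Gamma _ ?_) (by fun_prop)
      intro m hm
      rcases hz with hz | hz
      · have := congrArg Complex.re hm
        simp at this
        have hm0 : (0 : ℝ) ≤ m := Nat.cast_nonneg m
        linarith
      · have := congrArg Complex.im hm
        simp at this
        exact hz this
  have hA1 : DifferentiableOn ℂ X U := hXd.differentiableOn
  have hA2 : DifferentiableOn ℂ (fun z : ℂ => u * Hg c 1 z * F (1 / 2 + z)) U := by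
    intro z hz
    rw [hU] at hz
    refine DifferentiableAt.differentiableWithinAt ?_
    exact ((hG z hz).const_mul u).mul (DifferentiableAt.comp z (f := fun z : ℂ => 1 / 2 + z) (hF.diff _) (by fun_prop))
  obtain ⟨z0, hz0⟩ : ∃ z0 : ℂ, z0 = ((max σ0 2 + 1 : ℝ) : ℂ) := ⟨_, rfl⟩
  have hz0re : z0.re = max σ0 2 + 1 := by rw [hz0, Complex.ofReal_re]
  have hz0U : z0 ∈ U := by
    rw [hU]
    left
    rw [hz0re]
    linarith [le_max_right σ0 2]
  have hev : X =ᶠ[𝓝 z0] fun z : ℂ => u * Hg c 1 z * F (1 / 2 + z) := by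
    have h3 : ∀ᶠ z : ℂ in 𝓝 z0, max σ0 2 < z.re :=
      (Complex.continuous_re.tendsto _).eventually (lt_mem_nhds (by rw [hz0re]; linarith))
    filter_upwards [h3] with z hz
    exact hbig z hz.le
  have hEq := (hA1.analyticOnNhd hUo).eqOn_of_preconnected_of_eventuallyEq (hA2.analyticOnNhd hUo) hUc hz0U hev
  have heq : ∀ z : ℂ, (1 / 2 < z.re ∨ z.im ≠ 0) → X z = u * Hg c 1 z * F (1 / 2 + z) := by
    intro z hz
    exact hEq (by rw [hU]; exact hz)
  -- bounds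
  obtain ⟨-, -, -, h4⟩ := Pool.Agent.Y771.GL.mf 2 (N * q ^ 2) (psx N χ) (l2 f χ) hfrm
  obtain ⟨B0, hB0⟩ : ∃ B0 : ℝ, B0 = ∑' n : ℕ, ‖l2 f χ n‖ * (n : ℝ) ^ (-(3 / 2 : ℝ)) := ⟨_, rfl⟩
  have hFB : ∀ s : ℂ, 3 / 2 ≤ s.re → ‖F s‖ ≤ max 1 B0 := by
    intro s hs
    rw [ser_eq hfrm hF (by linarith)]
    refine le_trans ?_ (le_max_right _ _)
    rw [hB0]
    exact (sum_of (h4 (3 / 2) (by norm_num)).1 hs).2
  refine ⟨c, u, X, F, ⟨hcp, hu0, hXd, ?_, ?_, ?_, ?_⟩, hF, c0 * κ, mul_ne_zero hc00 hκ0, max σ0 2 + 1, ?_⟩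
  · -- symmetry
    intro z
    have e1 : X (-(conj z)) = c0 * X0 (1 - (1 / 2 + conj z)) := by
      rw [hX]
      show c0 * X0 (-(conj z) + 1 / 2) = _
      congr 2
      ring
    have e2 : conj (1 / 2 + conj z) = z + 1 / 2 := by
      rw [map_add, Complex.conj_conj, map_div₀, map_one]
      have : conj (2 : ℂ) = 2 := Complex.conj_ofNat 2
      rw [this]
      ring
    rw [e1, hfe, e2, ← mul_assoc, hc0w, ← map_mul]
    rw [hX]
  · intro z hz
    have h1 : ((2 : ℕ) : ℝ) / 2 = 1 := by norm_num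
    rw [h1]
    refine heq z ?_
    rcases hz with hz | hz
    · exact Or.inr hz.ne'
    · exact Or.inl hz
  · -- vertical strips
    intro a b
    obtain ⟨C1, hC1⟩ := hFE.vert (a + 1 / 2) (b + 1 / 2)
    have hK : IsCompact (Set.Icc a b ×ℂ Set.Icc (-1 : ℝ) 1) := isCompact_Icc.reProdIm isCompact_Icc
    obtain ⟨C2, hC2⟩ := hK.exists_bound_of_continuousOn (f := X) hXd.continuous.continuousOn
    refine ⟨max (‖u‖ * ‖(c : ℂ) ^ (-(1 / 2) : ℂ)‖ * C1) C2, fun z hz1 hz2 => ?_⟩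
    rcases le_or_gt 1 |z.im| with h1 | h1
    · refine le_trans ?_ (le_max_left _ _)
      have him : z.im ≠ 0 := by
        intro h0; rw [h0, abs_zero] at h1; linarith
      rw [heq z (Or.inr him)]
      have h5 := hC1 (1 / 2 + z) (by simp; linarith) (by simp; linarith) (by simpa using h1)
      have h6 : Hg c 1 z = (c : ℂ) ^ (-(1 / 2) : ℂ) * W388.GG 2 N q (1 / 2 + z) := by
        unfold Hg W388.GG
        rw [← hc, ← mul_assoc, ← Complex.cpow_add _ _ hcc]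
        congr 1
        · congr 1; ring
        · congr 1
          push_cast
          ring
      rw [h6]
      calc ‖u * ((c : ℂ) ^ (-(1 / 2) : ℂ) * W388.GG 2 N q (1 / 2 + z)) * F (1 / 2 + z)‖
          = ‖u‖ * ‖(c : ℂ) ^ (-(1 / 2) : ℂ)‖ * ‖W388.GG 2 N q (1 / 2 + z) * F (1 / 2 + z)‖ := by
            rw [norm_mul, norm_mul, norm_mul, norm_mul]; ring
        _ ≤ _ := by gcongr
    · refine le_trans (hC2 z ?_) (le_max_right _ _)
      rw [Complex.mem_reProdIm]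
      have := abs_lt.1 h1
      exact ⟨⟨hz1, hz2⟩, ⟨this.1.le, this.2.le⟩⟩
  · -- growth
    obtain ⟨A, hA⟩ : ∃ A : ℝ, A = 2 + 2 * (max 1 B0 * N) * ((((2 : ℤ) : ℝ) - 1) / 2 + 6) ^ 2 := ⟨_, rfl⟩
    have hA0 : 0 ≤ A := by
      rw [hA]
      have : (0 : ℝ) ≤ max 1 B0 := le_trans zero_le_one (le_max_left _ _)
      positivity
    refine ⟨max A (A * (q : ℝ) ^ A), fun s h1 h3 => ?_⟩
    have h5 := Pool.Agent.W820.TW.F_growth (k := 2) (N := N) (Q := q) (B := max 1 B0) (by norm_num) hN1 hq1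
      (le_max_left _ _) hFE hFB (A := A) (le_of_eq hA.symm) s h1 h3
    have hs0 : 0 < s.im := by linarith
    rw [Real.mul_rpow hq0.le hs0.le, ← mul_assoc] at h5
    refine h5.trans ?_
    have h6 : s.im ^ A ≤ s.im ^ (max A (A * (q : ℝ) ^ A)) :=
      Real.rpow_le_rpow_of_exponent_le h3 (le_max_left _ _)
    have h7 : A * (q : ℝ) ^ A ≤ max A (A * (q : ℝ) ^ A) := le_max_right _ _
    have h8 : 0 ≤ s.im ^ A := by positivity
    have h9 : 0 ≤ max A (A * (q : ℝ) ^ A) := le_trans hA0 (le_max_left _ _)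
    exact mul_le_mul h7 h6 h8 h9
  · intro s hs
    have hre : (s - 1 / 2 : ℂ).re = s.re - 1 / 2 := by simp
    have e1 : X (s - 1) = c0 * X0 (s - 1 / 2) := by
      rw [hX]
      show c0 * X0 (s - 1 + 1 / 2) = _
      congr 2
      ring
    rw [e1, hX0 _ (by rw [hre]; linarith)]
    have e2 : (s - 1 / 2 + 1 / 2 : ℂ) = s := by ring
    rw [e2]
    ring

/-- zeros of a completed L-function are in the strip -/
theorem strip_of {k N : ℕ} {ps lam : ℕ → ℂ} {c : ℝ} {u : ℂ} {X Z : ℂ → ℂ} (hk : 1 ≤ k) (hf : Frm k N ps lam)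
    (hL : IsL lam Z) (hD : LData k c u X Z) :
    (∀ s : ℂ, X s = 0 → |s.re| ≤ 1 / 2) ∧ ∃ z, X z ≠ 0 := by
  have hk0 : (0 : ℝ) < k := by exact_mod_cast hk
  have key : ∀ z : ℂ, 1 / 2 < z.re → X z ≠ 0 := by
    intro z hz
    rw [hD.eq z (Or.inr hz)]
    have hcc : (c : ℂ) ≠ 0 := by exact_mod_cast hD.c_pos.ne'
    refine mul_ne_zero (mul_ne_zero hD.u_ne ?_) ?_
    · unfold Hg
      refine mul_ne_zero ?_ ?_
      · rw [Complex.cpow_def_of_ne_zero hcc]; exact Complex.exp_ne_zero _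
      · refine Complex.Gamma_ne_zero ?_
        intro m hm
        have h1 := congrArg Complex.re hm
        simp at h1
        have hm0 : (0 : ℝ) ≤ m := Nat.cast_nonneg m
        linarith
    · obtain ⟨c1, K1, hc1, -, h1⟩ := rgt_of hf hL (z.re - 1 / 2) (by linarith)
      have h2 := (h1 (1 / 2 + z) (by simp; linarith)).1
      exact norm_pos_iff.1 (by linarith)
  refine ⟨fun s hs => ?_, 1, key 1 (by norm_num)⟩
  rw [abs_le]
  constructor
  · by_contra hc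
    push Not at hc
    have h1 := key (-(conj s)) (by simp; linarith)
    apply h1
    rw [hD.symm, hs, map_zero]
  · by_contra hc
    push Not at hc
    exact key s hc hs

/-- **The completed L-function of a twist has the properties `GG`.** -/
theorem gg_tw (hf : IsForm N f w) (hχ : χ.IsPrimitive) (hco : Nat.Coprime q N) :
    ∃ (H X Z : ℂ → ℂ), GG 1 H X Z ∧ (∀ s : ℂ, X s = 0 → |s.re| ≤ 1 / 2) ∧ (∃ z, X z ≠ 0) ∧
      ∃ v : ℂ, v ≠ 0 ∧ ∃ σ : ℝ, ∀ s : ℂ, σ ≤ s.re → X (s - 1) = v * facE f χ s := by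
  obtain ⟨c, u, X, Z, hD, hL, hv⟩ := ldata_tw hf hχ hco
  have hfrm := frm2 hf hχ hco
  have hcg := cg_of hfrm hL hD
  obtain ⟨h1, h2⟩ := strip_of (by norm_num) hfrm hL hD
  exact ⟨_, X, Z, ⟨hcg, goodX_of hfrm hL hcg.cf, topL_of hfrm hL hcg.cf⟩, h1, h2, hv⟩

end Pool.Agent.Y693.GL
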