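import Pool.Agent.Y671.GL.Spec4

set_option autoImplicit false

/-!
# Project GD2: the structure `GG` is closed under products
-/

namespace Pool.Agent.Y693.GL

open Complex Filter Topology MeasureTheory Set
open scoped ComplexConjugate
open Pool.Agent.H24R2.DZ (NN)
open Pool.Agent.Y671.GL

lemma nn_mul {a1 a2 η : ℝ} {F1 F2 : ℂ → ℂ} (h1 : NN a1 η F1) (h2 : NN a2 η F2) :
    NN (a1 + a2) η (fun z => F1 z * F2 z) := by
  refine ⟨h1.diff.mul h2.diff, ?_, ?_, ?_⟩
  · intro z
    simp only [h1.symm z, h2.symm z, map_mul]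
  · intro z hz hz'
    obtain ⟨a, b⟩ := h1.far z hz hz'
    obtain ⟨c, d⟩ := h2.far z hz hz'
    refine ⟨mul_ne_zero a c, ?_⟩
    rw [logDeriv_mul z a c (h1.diff z) (h2.diff z)]
    have e : logDeriv F1 z + logDeriv F2 z - ((a1 + a2 : ℝ) : ℂ) =
        (logDeriv F1 z - (a1 : ℂ)) + (logDeriv F2 z - (a2 : ℂ)) := by push_cast; ring
    rw [e]
    refine (norm_add_le _ _).trans ?_
    linarith
  · intro z hz hz'
    have a := h1.near z hz hz'
    have b := h2.near z hz hz'
    rw [norm_mul, norm_mul]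
    calc ‖F1 z‖ * ‖F2 z‖ ≤ (‖F1 1‖ * Real.exp (-(9 / 10 * a1))) * (‖F2 1‖ * Real.exp (-(9 / 10 * a2))) :=
          mul_le_mul a b (norm_nonneg _) (by positivity)
      _ = ‖F1 1‖ * ‖F2 1‖ * (Real.exp (-(9 / 10 * a1)) * Real.exp (-(9 / 10 * a2))) := by ring
      _ = ‖F1 1‖ * ‖F2 1‖ * Real.exp (-(9 / 10 * (a1 + a2))) := by
          rw [← Real.exp_add]; congr 2; ring

lemma good_mul {κ κ' : ℝ} {X X' : ℂ → ℂ} (hκ : 0 < κ) (hκ' : 0 < κ') (h1 : GoodX κ X) (h2 : GoodX κ' X') :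
    GoodX (κ + κ') (fun w => X w * X' w) := by
  intro η hη
  obtain ⟨c1, C1, a1, T1, hc1, hC1, ha1, hT1, H1⟩ := h1 η hη
  obtain ⟨c2, C2, a2, T2, hc2, hC2, ha2, hT2, H2⟩ := h2 η hη
  have hs : 0 < κ + κ' := by linarith
  set s := κ + κ' with hsdef
  set p := κ / s with hp
  set q := κ' / s with hq
  have hpp : 0 < p := by positivity
  have hqp : 0 < q := by positivity
  have hpq : p + q = 1 := by
    rw [hp, hq, ← add_div]; exact div_self hs.ne'
  have hps : p * s = κ := by rw [hp]; field_simp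
  have hqs : q * s = κ' := by rw [hq]; field_simp
  have hp1 : p ≤ 1 := by linarith
  have hq1 : q ≤ 1 := by linarith
  refine ⟨min (c1 * p) (c2 * q), C1 + C2, max (a1 / p) (a2 / q), max T1 T2, by positivity, by positivity,
    ?_, hT1.trans (le_max_left _ _), ?_⟩
  · refine le_trans ?_ (le_max_left _ _)
    rw [le_div_iff₀ hpp]; linarith
  intro T a r hT ha hr hr1 hκr haT
  have hT0 : 0 < T := by linarith [(le_max_left T1 T2).trans hT]
  have ha1' : a1 ≤ p * a := by
    have := (le_max_left _ _).trans ha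
    rw [div_le_iff₀ hpp] at this; linarith
  have ha2' : a2 ≤ q * a := by
    have := (le_max_right _ _).trans ha
    rw [div_le_iff₀ hqp] at this; linarith
  have ha0 : 0 < a := by
    by_contra hc
    have : p * a ≤ 0 := by nlinarith
    linarith
  have e1 : |κ * r * Real.log T - p * a| ≤ 1 / 2 := by
    have : κ * r * Real.log T - p * a = p * (s * r * Real.log T - a) := by rw [← hps]; ring
    rw [this, abs_mul, abs_of_pos hpp]
    calc p * |s * r * Real.log T - a| ≤ 1 * (1 / 2) := by gcongr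
      _ = 1 / 2 := by ring
  have e2 : |κ' * r * Real.log T - q * a| ≤ 1 / 2 := by
    have : κ' * r * Real.log T - q * a = q * (s * r * Real.log T - a) := by rw [← hqs]; ring
    rw [this, abs_mul, abs_of_pos hqp]
    calc q * |s * r * Real.log T - a| ≤ 1 * (1 / 2) := by gcongr
      _ = 1 / 2 := by ring
  have m1 := H1 T (p * a) r ((le_max_left _ _).trans hT) ha1' hr hr1 (by nlinarith) e1
  have m2 := H2 T (q * a) r ((le_max_right _ _).trans hT) ha2' hr hr1 (by nlinarith) e2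
  calc volume {t0 : ℝ | T / 2 ≤ t0 ∧ t0 ≤ 3 * T ∧
        ¬ NN a η (fun z => X (I * t0 + r * z) * X' (I * t0 + r * z))}
      ≤ volume ({t0 : ℝ | T / 2 ≤ t0 ∧ t0 ≤ 3 * T ∧ ¬ NN (p * a) η (fun z => X (I * t0 + r * z))} ∪
          {t0 : ℝ | T / 2 ≤ t0 ∧ t0 ≤ 3 * T ∧ ¬ NN (q * a) η (fun z => X' (I * t0 + r * z))}) := by
        refine measure_mono ?_
        rintro t0 ⟨k1, k2, k3⟩
        by_cases g1 : NN (p * a) η (fun z => X (I * t0 + r * z))
        · by_cases g2 : NN (q * a) η (fun z => X' (I * t0 + r * z))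
          · exfalso
            apply k3
            have := nn_mul g1 g2
            have e : p * a + q * a = a := by rw [← add_mul, hpq, one_mul]
            rwa [e] at this
          · exact Or.inr ⟨k1, k2, g2⟩
        · exact Or.inl ⟨k1, k2, g1⟩
    _ ≤ _ := measure_union_le _ _
    _ ≤ ENNReal.ofReal (C1 * T * Real.exp (-(c1 * (p * a)))) +
        ENNReal.ofReal (C2 * T * Real.exp (-(c2 * (q * a)))) := add_le_add m1 m2
    _ = ENNReal.ofReal (C1 * T * Real.exp (-(c1 * (p * a))) + C2 * T * Real.exp (-(c2 * (q * a)))) :=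
        (ENNReal.ofReal_add (by positivity) (by positivity)).symm
    _ ≤ ENNReal.ofReal ((C1 + C2) * T * Real.exp (-(min (c1 * p) (c2 * q) * a))) := by
        refine ENNReal.ofReal_le_ofReal ?_
        have g1 : Real.exp (-(c1 * (p * a))) ≤ Real.exp (-(min (c1 * p) (c2 * q) * a)) := by
          apply Real.exp_le_exp.2
          have := min_le_left (c1 * p) (c2 * q)
          nlinarith
        have g2 : Real.exp (-(c2 * (q * a))) ≤ Real.exp (-(min (c1 * p) (c2 * q) * a)) := by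
          apply Real.exp_le_exp.2
          have := min_le_right (c1 * p) (c2 * q)
          nlinarith
        have g3 : C1 * T * Real.exp (-(c1 * (p * a))) ≤ C1 * T * Real.exp (-(min (c1 * p) (c2 * q) * a)) := by
          gcongr
        have g4 : C2 * T * Real.exp (-(c2 * (q * a))) ≤ C2 * T * Real.exp (-(min (c1 * p) (c2 * q) * a)) := by
          gcongr
        nlinarith

lemma far_mul {κ κ' : ℝ} {X X' : ℂ → ℂ} (hd : Differentiable ℂ X) (hd' : Differentiable ℂ X') {R ε0 η t : ℝ}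
    (h1 : FarL κ X R ε0 (η / 2) t) (h2 : FarL κ' X' R ε0 (η / 2) t) :
    FarL (κ + κ') (fun w => X w * X' w) R ε0 η t := by
  intro z hz hz'
  obtain ⟨a, b⟩ := h1 z hz hz'
  obtain ⟨c, d⟩ := h2 z hz hz'
  refine ⟨mul_ne_zero a c, ?_⟩
  rw [logDeriv_mul _ a c (hd _) (hd' _)]
  have e : logDeriv X (I * t + z) + logDeriv X' (I * t + z) - (((κ + κ') * Real.log t : ℝ) : ℂ) =
      (logDeriv X (I * t + z) - ((κ * Real.log t : ℝ) : ℂ)) +
      (logDeriv X' (I * t + z) - ((κ' * Real.log t : ℝ) : ℂ)) := by push_cast; ring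
  rw [e]
  refine (norm_add_le _ _).trans ?_
  linarith

lemma top_mul {κ κ' : ℝ} {X X' : ℂ → ℂ} (hd : Differentiable ℂ X) (hd' : Differentiable ℂ X')
    (h1 : TopL κ X) (h2 : TopL κ' X') : TopL (κ + κ') (fun w => X w * X' w) := by
  intro R ε0 η hR hε0 hη
  obtain ⟨c1, C1, T1, hc1, hC1, hT1, H1⟩ := h1 R ε0 (η / 2) hR hε0 (by positivity)
  obtain ⟨c2, C2, T2, hc2, hC2, hT2, H2⟩ := h2 R ε0 (η / 2) hR hε0 (by positivity)
  refine ⟨min c1 c2, C1 + C2, max T1 T2, lt_min hc1 hc2, by positivity, hT1.trans (le_max_left _ _), ?_⟩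
  intro T hT
  have hT0 : 2 ≤ T := hT1.trans ((le_max_left T1 T2).trans hT)
  have m1 := H1 T ((le_max_left _ _).trans hT)
  have m2 := H2 T ((le_max_right _ _).trans hT)
  calc volume {t : ℝ | T / 2 ≤ t ∧ t ≤ 3 * T ∧ ¬ FarL (κ + κ') (fun w => X w * X' w) R ε0 η t}
      ≤ volume ({t : ℝ | T / 2 ≤ t ∧ t ≤ 3 * T ∧ ¬ FarL κ X R ε0 (η / 2) t} ∪
          {t : ℝ | T / 2 ≤ t ∧ t ≤ 3 * T ∧ ¬ FarL κ' X' R ε0 (η / 2) t}) := by
        refine measure_mono ?_
        rintro t ⟨k1, k2, k3⟩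
        by_cases g1 : FarL κ X R ε0 (η / 2) t
        · by_cases g2 : FarL κ' X' R ε0 (η / 2) t
          · exact absurd (far_mul hd hd' g1 g2) k3
          · exact Or.inr ⟨k1, k2, g2⟩
        · exact Or.inl ⟨k1, k2, g1⟩
    _ ≤ _ := measure_union_le _ _
    _ ≤ ENNReal.ofReal (C1 * T ^ (1 - c1)) + ENNReal.ofReal (C2 * T ^ (1 - c2)) := add_le_add m1 m2
    _ = ENNReal.ofReal (C1 * T ^ (1 - c1) + C2 * T ^ (1 - c2)) :=
        (ENNReal.ofReal_add (by positivity) (by positivity)).symm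
    _ ≤ ENNReal.ofReal ((C1 + C2) * T ^ (1 - min c1 c2)) := by
        refine ENNReal.ofReal_le_ofReal ?_
        have g1 : T ^ (1 - c1) ≤ T ^ (1 - min c1 c2) :=
          Real.rpow_le_rpow_of_exponent_le (by linarith) (by linarith [min_le_left c1 c2])
        have g2 : T ^ (1 - c2) ≤ T ^ (1 - min c1 c2) :=
          Real.rpow_le_rpow_of_exponent_le (by linarith) (by linarith [min_le_right c1 c2])
        have g3 : C1 * T ^ (1 - c1) ≤ C1 * T ^ (1 - min c1 c2) := by gcongr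
        have g4 : C2 * T ^ (1 - c2) ≤ C2 * T ^ (1 - min c1 c2) := by gcongr
        nlinarith

lemma cf_mul {κ κ' : ℝ} {H X Z H' X' Z' : ℂ → ℂ} (h1 : CF κ H X Z) (h2 : CF κ' H' X' Z') :
    CF (κ + κ') (fun w => H w * H' w) (fun w => X w * X' w) (fun w => Z w * Z' w) := by
  refine ⟨add_pos h1.κ_pos h2.κ_pos, h1.diff.mul h2.diff, ?_, ?_, h1.diffZ.mul h2.diffZ, ?_, ?_, ?_⟩
  · intro z
    simp only [h1.symm z, h2.symm z, map_mul]
  · intro w hw
    simp only [h1.eq w hw, h2.eq w hw]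
    ring
  · intro R hR
    obtain ⟨K1, T1, hK1, hT1, H1⟩ := h1.gam R hR
    obtain ⟨K2, T2, hK2, hT2, H2⟩ := h2.gam R hR
    refine ⟨K1 + K2, max T1 T2, by positivity, hT1.trans (le_max_left _ _), ?_⟩
    intro t u ht hu
    obtain ⟨a1, a2, a3, a4, a5⟩ := H1 t u ((le_max_left _ _).trans ht) hu
    obtain ⟨b1, b2, b3, b4, b5⟩ := H2 t u ((le_max_right _ _).trans ht) hu
    refine ⟨a1.mul b1, mul_ne_zero a2 b2, ?_, ?_, ?_⟩
    · rw [logDeriv_mul _ a2 b2 a1 b1]
      have e : logDeriv H (I * t + u) + logDeriv H' (I * t + u) - (((κ + κ') * Real.log t : ℝ) : ℂ) =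
          (logDeriv H (I * t + u) - ((κ * Real.log t : ℝ) : ℂ)) +
          (logDeriv H' (I * t + u) - ((κ' * Real.log t : ℝ) : ℂ)) := by push_cast; ring
      rw [e]
      refine (norm_add_le _ _).trans ?_
      linarith
    · rw [norm_mul, norm_mul]
      calc Real.exp ((κ + κ') * Real.log t * u.re - (K1 + K2)) * (‖H (I * t)‖ * ‖H' (I * t)‖)
          = (Real.exp (κ * Real.log t * u.re - K1) * ‖H (I * t)‖) *
            (Real.exp (κ' * Real.log t * u.re - K2) * ‖H' (I * t)‖) := by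
            rw [show (κ + κ') * Real.log t * u.re - (K1 + K2) =
              (κ * Real.log t * u.re - K1) + (κ' * Real.log t * u.re - K2) by ring, Real.exp_add]
            ring
        _ ≤ _ := mul_le_mul a4 b4 (by positivity) (norm_nonneg _)
    · rw [norm_mul, norm_mul]
      calc ‖H (I * t + u)‖ * ‖H' (I * t + u)‖ ≤ (Real.exp (κ * Real.log t * u.re + K1) * ‖H (I * t)‖) *
            (Real.exp (κ' * Real.log t * u.re + K2) * ‖H' (I * t)‖) :=
            mul_le_mul a5 b5 (norm_nonneg _) (by positivity)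
        _ = Real.exp ((κ + κ') * Real.log t * u.re + (K1 + K2)) * (‖H (I * t)‖ * ‖H' (I * t)‖) := by
            rw [show (κ + κ') * Real.log t * u.re + (K1 + K2) =
              (κ * Real.log t * u.re + K1) + (κ' * Real.log t * u.re + K2) by ring,
              Real.exp_add (κ * Real.log t * u.re + K1)]
            generalize Real.exp (κ * Real.log t * u.re + K1) = x
            generalize Real.exp (κ' * Real.log t * u.re + K2) = y
            ring
  · intro R hR
    obtain ⟨K1, T1, hK1, hT1, H1⟩ := h1.gro R hR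
    obtain ⟨K2, T2, hK2, hT2, H2⟩ := h2.gro R hR
    refine ⟨K1 + K2, max T1 T2, by positivity, hT1.trans (le_max_left _ _), ?_⟩
    intro t u ht hu
    have a := H1 t u ((le_max_left _ _).trans ht) hu
    have b := H2 t u ((le_max_right _ _).trans ht) hu
    have ht0 : 0 < t := by linarith [hT1, (le_max_left T1 T2).trans ht]
    rw [norm_mul, Real.rpow_add ht0]
    exact mul_le_mul a b (norm_nonneg _) (by positivity)
  · intro ε hε
    obtain ⟨c1, K1, hc1, hK1, H1⟩ := h1.rgt ε hε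
    obtain ⟨c2, K2, hc2, hK2, H2⟩ := h2.rgt ε hε
    refine ⟨c1 * c2, K1 * K2 + K1 + K2, by positivity, by positivity, ?_⟩
    intro s hs
    obtain ⟨a1, a2, a3⟩ := H1 s hs
    obtain ⟨b1, b2, b3⟩ := H2 s hs
    have z1 : Z s ≠ 0 := norm_pos_iff.1 (by linarith)
    have z2 : Z' s ≠ 0 := norm_pos_iff.1 (by linarith)
    refine ⟨?_, ?_, ?_⟩
    · rw [norm_mul]; exact mul_le_mul a1 b1 hc2.le (norm_nonneg _)
    · rw [norm_mul]
      have : ‖Z s‖ * ‖Z' s‖ ≤ K1 * K2 := mul_le_mul a2 b2 (norm_nonneg _) hK1.le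
      linarith
    · rw [logDeriv_mul _ z1 z2 (h1.diffZ s) (h2.diffZ s)]
      refine (norm_add_le _ _).trans ?_
      have : 0 < K1 * K2 := by positivity
      linarith

lemma cg_mul {κ κ' : ℝ} {H X Z H' X' Z' : ℂ → ℂ} (h1 : CG κ H X Z) (h2 : CG κ' H' X' Z') :
    CG (κ + κ') (fun w => H w * H' w) (fun w => X w * X' w) (fun w => Z w * Z' w) := by
  refine ⟨cf_mul h1.cf h2.cf, ?_, ?_⟩
  · obtain ⟨K1, T1, hK1, hT1, H1⟩ := h1.gam2
    obtain ⟨K2, T2, hK2, hT2, H2⟩ := h2.gam2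
    refine ⟨K1 + K2, max T1 T2, by linarith, hT1.trans (le_max_left _ _), ?_⟩
    intro t ht
    obtain ⟨a0, a⟩ := H1 t ((le_max_left _ _).trans ht)
    obtain ⟨b0, b⟩ := H2 t ((le_max_right _ _).trans ht)
    constructor
    · rw [norm_mul, show -((K1 + K2) * t) = -(K1 * t) + -(K2 * t) by ring, Real.exp_add]
      exact mul_le_mul a0 b0 (by positivity) (norm_nonneg _)
    intro u hu
    obtain ⟨a1, a2, a3⟩ := a u hu
    obtain ⟨b1, b2, b3⟩ := b u hu
    refine ⟨a1.mul b1, mul_ne_zero a2 b2, ?_⟩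
    rw [logDeriv_mul _ a2 b2 a1 b1]
    have e : logDeriv H (I * t + u) + logDeriv H' (I * t + u) - (((κ + κ') * Real.log t : ℝ) : ℂ) =
        (logDeriv H (I * t + u) - ((κ * Real.log t : ℝ) : ℂ)) +
        (logDeriv H' (I * t + u) - ((κ' * Real.log t : ℝ) : ℂ)) := by push_cast; ring
    rw [e]
    refine (norm_add_le _ _).trans ?_
    linarith
  · obtain ⟨K1, hK1, H1⟩ := h1.slow
    obtain ⟨K2, hK2, H2⟩ := h2.slow
    refine ⟨K1 + K2, by positivity, fun z => ?_⟩
    rw [norm_mul, add_mul, Real.exp_add]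
    exact mul_le_mul (H1 z) (H2 z) (norm_nonneg _) (by positivity)

theorem mul : S_MUL := by
  intro κ κ' H X Z H' X' Z' h1 h2
  exact ⟨cg_mul h1.cg h2.cg, good_mul h1.cg.cf.κ_pos h2.cg.cf.κ_pos h1.good h2.good,
    top_mul h1.cg.cf.diff h2.cg.cf.diff h1.top h2.top⟩

end Pool.Agent.Y693.GL
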