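import Pool.Agent.Y693.GL.Gy
import Pool.Agent.Y693.GL.Ldt
import Pool.Agent.TH839.UH.Fin2

set_option autoImplicit false

/-!
# Products of twists: elliptic curves over abelian number fields
-/

namespace Pool.Agent.Y693.GL

open UpperHalfPlane hiding I
open MatrixGroups CongruenceSubgroup Filter Topology Complex
open Pool.Agent.Y671.GL
open Pool.Agent.W169.HF (IsForm coef heat)
open Pool.Agent.W355.UN (facE prodE condA Pk coprime_cond)
open Pool.Agent.TH839.UH (Flow lD)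
open scoped ComplexConjugate

theorem gy_prod {ι : Type*} [DecidableEq ι] (s : Finset ι) (hs : s.Nonempty) (H X Z : ι → ℂ → ℂ)
    (h : ∀ i ∈ s, GY 1 (H i) (X i) (Z i)) :
    GY (s.card : ℝ) (fun w => ∏ i ∈ s, H i w) (fun w => ∏ i ∈ s, X i w) (fun w => ∏ i ∈ s, Z i w) := by
  induction hs using Finset.Nonempty.cons_induction with
  | singleton a =>
    simp only [Finset.card_singleton, Finset.prod_singleton, Nat.cast_one]
    exact h a (Finset.mem_singleton_self a)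
  | cons a s ha hs ih =>
    have h1 := h a (Finset.mem_cons_self a s)
    have h2 := ih fun i hi => h i (Finset.mem_cons_of_mem hi)
    have h3 := gy_mul h1 h2
    simp only [Finset.card_cons, Finset.prod_cons, Nat.cast_add, Nat.cast_one]
    rw [add_comm (s.card : ℝ) 1]
    exact h3

section
variable {M : ℕ} [NeZero M] (G : Subgroup (DirichletCharacter ℂ M)) [Fintype G]
variable {N : ℕ} [NeZero N] {f : CuspForm (Gamma0 N : Subgroup (GL (Fin 2) ℝ)) 2} {w : ℝ}

theorem gy_ab (hf : IsForm N f w) (hco : Nat.Coprime M N) :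
    ∃ (H X Z : ℂ → ℂ), GY (Fintype.card G : ℝ) H X Z ∧ (∀ s : ℂ, X s = 0 → |s.re| ≤ 1 / 2) ∧ (∃ z, X z ≠ 0) ∧
      ∃ v : ℂ, v ≠ 0 ∧ ∃ σ : ℝ, ∀ s : ℂ, σ ≤ s.re → X (s - 1) = v * prodE G f s := by
  classical
  have hone : ∀ χ : G, ∃ (H X Z : ℂ → ℂ), GG 1 H X Z ∧ (∀ s : ℂ, X s = 0 → |s.re| ≤ 1 / 2) ∧ (∃ z, X z ≠ 0) ∧
      ∃ v : ℂ, v ≠ 0 ∧ ∃ σ : ℝ, ∀ s : ℂ, σ ≤ s.re →
        X (s - 1) = v * facE f (χ : DirichletCharacter ℂ M).primitiveCharacter s := by
    intro χ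
    haveI : NeZero (χ : DirichletCharacter ℂ M).conductor := ⟨DirichletCharacter.conductor_ne_zero _⟩
    exact gg_tw hf (DirichletCharacter.primitiveCharacter_isPrimitive _) (coprime_cond hco _)
  choose H X Z h1 h2 h3 v h4 σ h5 using hone
  refine ⟨fun w => ∏ χ : G, H χ w, fun w => ∏ χ : G, X χ w, fun w => ∏ χ : G, Z χ w, ?_, ?_, ?_,
    ∏ χ : G, v χ, Finset.prod_ne_zero_iff.2 fun χ _ => h4 χ, ∑ χ : G, |σ χ|, ?_⟩
  · have := gy_prod (Finset.univ : Finset G) ⟨1, Finset.mem_univ _⟩ H X Z fun χ _ => gy_one (h1 χ)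
    rw [Finset.card_univ] at this
    exact this
  · intro s hs
    obtain ⟨χ, -, hχ⟩ := Finset.prod_eq_zero_iff.1 hs
    exact h2 χ s hχ
  · refine ⟨1, Finset.prod_ne_zero_iff.2 fun χ _ => ?_⟩
    intro h0
    have := h2 χ 1 h0
    norm_num at this
  · intro s hs
    unfold prodE
    rw [← Finset.prod_mul_distrib]
    refine Finset.prod_congr rfl fun χ _ => h5 χ s ?_
    refine le_trans ?_ hs
    refine (le_abs_self _).trans ?_
    exact Finset.single_le_sum (f := fun χ : G => |σ χ|) (fun _ _ => abs_nonneg _) (Finset.mem_univ χ)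

/-- the completed L-function over the field in the normalisation of `GY` -/
theorem gy_Lam (hf : IsForm N f w) (hco : Nat.Coprime M N) {Λ : ℂ → ℂ} (hd : Differentiable ℂ Λ)
    (hΛ : ∃ σ : ℝ, ∀ s : ℂ, σ ≤ s.re → Λ s = prodE G f s) :
    ∃ (H X Z : ℂ → ℂ), GY (Fintype.card G : ℝ) H X Z ∧ (∀ s : ℂ, X s = 0 → |s.re| ≤ 1 / 2) ∧ (∃ z, X z ≠ 0) ∧
      ∃ v : ℂ, v ≠ 0 ∧ ∀ z : ℂ, X z = v * Λ (1 + z) := by
  obtain ⟨H, X, Z, h1, h2, h3, v, h4, σ, h5⟩ := gy_ab G hf hco
  refine ⟨H, X, Z, h1, h2, h3, v, h4, ?_⟩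
  obtain ⟨σ', hσ'⟩ := hΛ
  have hXd := h1.cg.cf.diff
  have hd1 : Differentiable ℂ (fun s : ℂ => X (s - 1)) := hXd.comp (by fun_prop)
  have hd2 : Differentiable ℂ (fun s : ℂ => v * Λ s) := hd.const_mul v
  have he := Pk.uniq (G := fun s => v * prodE G f s) hd2 hd1 ⟨σ', fun s hs => by
    show v * Λ s = v * prodE G f s
    rw [hσ' s hs]⟩ ⟨σ, h5⟩
  intro z
  have h6 := congrFun he (1 + z)
  simpa using h6

end

/-! ### translation -/

section tr
variable {Λ X : ℂ → ℂ} {v : ℂ}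

theorem iter_tr (h : ∀ z : ℂ, X z = v * Λ (1 + z)) (n : ℕ) (z : ℂ) :
    iteratedDeriv n X z = v * iteratedDeriv n Λ (1 + z) := by
  have h0 : X = fun z => v * Λ (1 + z) := funext h
  rw [h0, iteratedDeriv_const_mul_field]
  congr 1
  have := congrFun (iteratedDeriv_comp_const_add n Λ 1) z
  exact this

theorem heat_tr (h : ∀ z : ℂ, X z = v * Λ (1 + z)) (t : ℝ) (z : ℂ) :
    heat t X z = v * heat t Λ (1 + z) := by
  unfold heat
  rw [mul_left_comm, ← MeasureTheory.integral_const_mul v]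
  congr 1
  refine MeasureTheory.integral_congr_ae (Filter.Eventually.of_forall fun y => ?_)
  show _ * X _ = v * (_ * Λ _)
  rw [h]
  have e : (1 + (z + ((2 * Real.sqrt t * y : ℝ) : ℂ))) = 1 + z + ((2 * Real.sqrt t * y : ℝ) : ℂ) := by ring
  rw [e]
  ring

end tr

/-! ### the low range and large times -/

theorem lD_le {d : ℕ} {A : ℝ} (hA : 1 ≤ A) (y : ℝ) (x : ℝ) (hx : 0 ≤ x) (hy : |y| ≤ Real.exp x) :
    lD d A y ≤ d + Real.log A + 2 * d * (x + 1) := by
  unfold lD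
  have h0 := abs_nonneg y
  have h1 : (0 : ℝ) < (1 + |y|) ^ (2 * d) := by positivity
  rw [Real.log_mul (by linarith) h1.ne', Real.log_pow]
  have h2 : Real.log (1 + |y|) ≤ x + 1 := by
    have h3 : 1 + |y| ≤ Real.exp (x + 1) := by
      have h4 : Real.exp (x + 1) = Real.exp x * Real.exp 1 := Real.exp_add _ _
      have h5 : (2 : ℝ) ≤ Real.exp 1 := by
        have := Real.add_one_le_exp (1 : ℝ)
        linarith
      have h6 : 1 ≤ Real.exp x := Real.one_le_exp hx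
      nlinarith
    calc Real.log (1 + |y|) ≤ Real.log (Real.exp (x + 1)) := Real.log_le_log (by linarith) h3
      _ = x + 1 := Real.log_exp _
  have h3 : (0 : ℝ) ≤ 2 * d := by positivity
  push_cast
  nlinarith

theorem lD_ge {d : ℕ} (hd : 1 ≤ d) {A : ℝ} (hA : 1 ≤ A) {y : ℝ} (hy : 1 ≤ y) : Real.log y ≤ lD d A y := by
  unfold lD
  have h1 : (0 : ℝ) < (1 + |y|) ^ (2 * d) := by positivity
  rw [Real.log_mul (by linarith) h1.ne', Real.log_pow]
  have h2 : 0 ≤ Real.log A := Real.log_nonneg hA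
  have h3 : Real.log y ≤ Real.log (1 + |y|) := Real.log_le_log (by linarith) (by linarith [le_abs_self y])
  have h4 : 0 ≤ Real.log y := Real.log_nonneg hy
  have h5 : (1 : ℝ) ≤ d := by exact_mod_cast hd
  push_cast
  nlinarith

/-- the low range -/
theorem low_of {C : ℝ} (hC : 0 < C) {d : ℕ} (hd : 1 ≤ d) {A : ℝ} (hA : 1 ≤ A) {Λ X : ℂ → ℂ} {v : ℂ} (hv : v ≠ 0)
    (hX : ∀ z : ℂ, X z = v * Λ (1 + z)) (h0 : heat 0 Λ = Λ) (hF : Flow C d A Λ) : LowX X := by
  have hd0 : (0 : ℝ) < d := by exact_mod_cast hd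
  have hlA : 0 ≤ Real.log A := Real.log_nonneg hA
  obtain ⟨N, hN⟩ := exists_nat_ge (2 * C * (d + Real.log A + 2 * d))
  refine ⟨4 * C * d, by positivity, N, ?_⟩
  intro n hn s hs hbad
  have hnN : 2 * C * (d + Real.log A + 2 * d) ≤ n := hN.trans (by exact_mod_cast hn)
  have h1 := lD_le (d := d) hA s.im (n / (4 * C * d)) (by positivity) hs
  have h2 : C * lD d A s.im ≤ n := by
    have h3 : C * lD d A s.im ≤ C * (d + Real.log A + 2 * d * (n / (4 * C * d) + 1)) := by gcongr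
    refine h3.trans ?_
    have h4 : C * (d + Real.log A + 2 * d * (n / (4 * C * d) + 1)) =
        C * (d + Real.log A + 2 * d) + n / 2 := by
      field_simp
      ring
    rw [h4]
    linarith
  obtain ⟨b1, b2⟩ := hbad
  have him : (1 + s : ℂ).im = s.im := by simp
  have h3 := hF.loc n 0 (1 + s) le_rfl (by rw [him, zero_mul, add_zero]; exact h2)
  rw [h0] at h3
  rw [iter_tr hX] at b1
  have h4 := h3 ((mul_eq_zero.1 b1).resolve_left hv)
  rcases b2 with b2 | b2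
  · apply b2
    have := h4.1
    simpa using this
  · rw [iter_tr hX] at b2
    exact h4.2 ((mul_eq_zero.1 b2).resolve_left hv)

/-- large times -/
theorem huge_of {C : ℝ} (hC : 0 < C) {d : ℕ} (hd : 1 ≤ d) {A : ℝ} (hA : 1 ≤ A) {Λ X : ℂ → ℂ} {v : ℂ} (hv : v ≠ 0)
    (hX : ∀ z : ℂ, X z = v * Λ (1 + z)) (hF : Flow C d A Λ) : HugeX X := by
  refine ⟨max 1 C, 2, le_max_left _ _, le_rfl, ?_⟩
  intro t τ s ht hτ hτ8 hX0 hst hbad
  have him : (1 + s : ℂ).im = t := by simp [hst]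
  have h1 := lD_ge hd hA (y := t) (by linarith)
  have h2 : C ≤ τ * lD d A t := by
    have h3 : C ≤ τ * Real.log t := (le_max_right _ _).trans hX0
    have h4 : τ * Real.log t ≤ τ * lD d A t := by gcongr
    linarith
  have hl0 : 0 ≤ lD d A t := le_trans (Real.log_nonneg (by linarith)) h1
  have h3 := hF.loc 0 τ (1 + s) hτ.le (by
    rw [him]
    push_cast
    nlinarith)
  obtain ⟨b1, b2⟩ := hbad
  have hh : heat τ X = fun z => v * heat τ Λ (1 + z) := funext fun z => heat_tr hX τ z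
  have b1' : heat τ X s = 0 := b1
  rw [hh] at b1'
  have h5 := h3 (by rw [iteratedDeriv_zero]; exact (mul_eq_zero.1 b1').resolve_left hv)
  rcases b2 with b2 | b2
  · apply b2
    have := h5.1
    simpa using this
  · have b3 : deriv (heat τ X) s = 0 := b2
    rw [← iteratedDeriv_one, iter_tr (X := heat τ X) (Λ := heat τ Λ) (v := v) (fun z => heat_tr hX τ z)] at b3
    exact h5.2 ((mul_eq_zero.1 b3).resolve_left hv)

end Pool.Agent.Y693.GL
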